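import Mathlib

set_option autoImplicit false

namespace Pool.Agent.H.MP_c40d78_co

def cc : Fin 6 → Fin 3 → ℤ :=
  ![![-1, 2, 0], ![-52, -28, 0], ![4, -7, 0], ![13, 6, 24], ![0, 0, 0], ![19, 10, -29]]

noncomputable def pp (i : Fin 6) : EuclideanSpace ℝ (Fin 3) := WithLp.toLp 2 (fun k => (cc i k : ℝ))

def QQ (i j : Fin 6) : ℤ := (cc i 0 - cc j 0) ^ 2 + (cc i 1 - cc j 1) ^ 2 + (cc i 2 - cc j 2) ^ 2

def sg : Equiv.Perm (Fin 6) := Equiv.swap 0 1 * Equiv.swap 2 3 * Equiv.swap 4 5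

def yl : Fin 6 → ℤ := ![48280, 543410, 54820, 232580, 47335, 313495]

theorem dist_pp (i j : Fin 6) : dist (pp i) (pp j) = √(QQ i j) := by
  rw [EuclideanSpace.dist_eq]
  simp [pp, QQ, Fin.sum_univ_three, Real.dist_eq]

theorem inj : Function.Injective pp := by
  intro i j h
  have h0 : dist (pp i) (pp j) = 0 := by rw [h, dist_self]
  rw [dist_pp, Real.sqrt_eq_zero'] at h0
  have : ∀ i j : Fin 6, QQ i j ≤ 0 → i = j := by decide
  exact this i j (by exact_mod_cast h0)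

noncomputable def yy : Fin 6 → ℝ :=
  ![4.828, √3501 - 4.828, 5.482, √826 - 5.482, 4.7335, √1302 - 4.7335]

theorem yl_le (i : Fin 6) : (yl i : ℝ) / 10000 ≤ yy i := by
  have a : (59.169 : ℝ) ≤ √3501 := Real.le_sqrt_of_sq_le (by norm_num)
  have b : (28.74 : ℝ) ≤ √826 := Real.le_sqrt_of_sq_le (by norm_num)
  have c : (36.083 : ℝ) ≤ √1302 := Real.le_sqrt_of_sq_le (by norm_num)
  fin_cases i <;> simp [yl, yy] <;> linarith

theorem dist_sg (i : Fin 6) : dist (pp i) (pp (sg i)) = yy i + yy (sg i) := by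
  rw [dist_pp]
  have h : ∀ i, sg i = ![1, 0, 3, 2, 5, 4] i := by decide
  rw [h]
  fin_cases i <;> simp [yy, QQ, cc] <;> norm_num

theorem dist_le (i j : Fin 6) (h : j ≠ i) : dist (pp i) (pp j) ≤ yy i + yy j := by
  by_cases h' : j = sg i
  · rw [h', dist_sg]
  · have : ∀ i j : Fin 6, j ≠ i → j ≠ sg i → QQ i j * 10000 ^ 2 ≤ (yl i + yl j) ^ 2 := by decide
    have h1 : (QQ i j : ℝ) * 10000 ^ 2 ≤ (yl i + yl j) ^ 2 := by exact_mod_cast this i j h h'
    have h2 : ∀ i, (0 : ℝ) ≤ yl i := by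
      have : ∀ i, 0 ≤ yl i := by decide
      exact fun i => by exact_mod_cast this i
    rw [dist_pp]
    refine le_trans (Real.sqrt_le_iff.2 ⟨?_, ?_⟩) (add_le_add (yl_le i) (yl_le j))
    · have := h2 i; have := h2 j; positivity
    · linarith

theorem maxsum (τ : Equiv.Perm (Fin 6)) (h : ∀ i, τ i ≠ i) :
    ∑ i, dist (pp i) (pp (τ i)) ≤ ∑ i, dist (pp i) (pp (sg i)) := by
  refine (Finset.sum_le_sum (fun i _ => dist_le i _ (h i))).trans (le_of_eq ?_)
  simp only [dist_sg, Finset.sum_add_distrib, Equiv.sum_comp]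

theorem ball (x : EuclideanSpace ℝ (Fin 3)) (i j : Fin 6)
    (h : dist x (midpoint ℝ (pp i) (pp j)) < dist (pp i) (pp j) / 2) :
    (x 0 - cc i 0) * (x 0 - cc j 0) + (x 1 - cc i 1) * (x 1 - cc j 1) +
      (x 2 - cc i 2) * (x 2 - cc j 2) < 0 := by
  have h1 := pow_lt_pow_left₀ h dist_nonneg two_ne_zero
  rw [div_pow, EuclideanSpace.dist_sq_eq, EuclideanSpace.dist_sq_eq] at h1
  simp [pp, Fin.sum_univ_three, Real.dist_eq, midpoint_eq_smul_add] at h1
  nlinarith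

theorem noball (x : EuclideanSpace ℝ (Fin 3))
    (h : ∀ i, dist x (midpoint ℝ (pp i) (pp (sg i))) < dist (pp i) (pp (sg i)) / 2) : False := by
  have h0 := ball x 0 1 (h 0)
  have h1 := ball x 2 3 (h 2)
  have h2 := ball x 4 5 (h 4)
  simp [cc] at h0 h1 h2
  nlinarith [sq_nonneg (120 * x 0 - 82), sq_nonneg (120 * x 1 + 179), sq_nonneg (120 * x 2 + 9)]

end Pool.Agent.H.MP_c40d78_co
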